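import Mathlib

/-!
Definitions for the project on finite groups acting on homotopy K3 surfaces (MP_90cd86_gt).
-/

open scoped Manifold ContDiff

noncomputable section

namespace Pool.Agent.helper62.K3

/-! ### The surface `X0` and K3 surfaces -/

/-- The nonzero vectors of `ℂ^6` on the three diagonal quadrics `∑ i ^ m * x_i ^ 2 = 0`,
`m = 0, 1, 2`. -/
def Cone : Set (Fin 6 → ℂ) :=
  {x | x ≠ 0 ∧ ∀ m : Fin 3, ∑ i : Fin 6, ((i : ℕ) : ℂ) ^ (m : ℕ) * x i ^ 2 = 0}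

/-- The complete intersection of three quadrics in `ℂP^5`. The line spanned by a unit vector `x`
is encoded by the orthogonal projector onto it, that is by the matrix with entries
`x_i * conj (x_j)`. -/
def X0 : Type :=
  {T : Fin 6 → Fin 6 → ℂ //
    ∃ x ∈ Cone, ∑ i, ‖x i‖ ^ 2 = 1 ∧ ∀ i j, T i j = x i * (starRingEnd ℂ) (x j)}

instance : TopologicalSpace X0 := instTopologicalSpaceSubtype

/-- A nowhere vanishing holomorphic 2-form on the complex surface `S`: in the chart `e` it is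
`w e * dz₁ ∧ dz₂`. -/
def HasTrivialCanonical (S : Type) [TopologicalSpace S] [ChartedSpace (ℂ × ℂ) S] : Prop :=
  ∃ w : OpenPartialHomeomorph S (ℂ × ℂ) → S → ℂ,
    (∀ e ∈ atlas (ℂ × ℂ) S, ∀ p ∈ e.source, w e p ≠ 0) ∧
    (∀ e ∈ atlas (ℂ × ℂ) S, DifferentiableOn ℂ (fun z => w e (e.symm z)) e.target) ∧
    (∀ e ∈ atlas (ℂ × ℂ) S, ∀ e' ∈ atlas (ℂ × ℂ) S, ∀ p ∈ e.source ∩ e'.source,
      w e p = w e' p * (fderiv ℂ (fun z => e' (e.symm z)) (e p)).det)

/-- K3 surfaces: compact connected complex surfaces with trivial canonical bundle in the homotopy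
type of `X0`. -/
structure IsK3Surface (S : Type) [TopologicalSpace S] [ChartedSpace (ℂ × ℂ) S] : Prop where
  compact : CompactSpace S
  hausdorff : T2Space S
  connected : ConnectedSpace S
  holomorphic : IsManifold 𝓘(ℂ, ℂ × ℂ) ω S
  canonical : HasTrivialCanonical S
  homotopy : Nonempty (ContinuousMap.HomotopyEquiv S X0)

/-- `G` is isomorphic to a group of holomorphic automorphisms of some K3 surface. -/
def IsK3Group (G : Type) [Group G] : Prop :=
  ∃ (S : Type) (_ : TopologicalSpace S) (_ : ChartedSpace (ℂ × ℂ) S),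
    IsK3Surface S ∧ ∃ ρ : G →* (S ≃ₜ S), Function.Injective ρ ∧
      ∀ g, ContMDiff 𝓘(ℂ, ℂ × ℂ) 𝓘(ℂ, ℂ × ℂ) ω (ρ g)

/-- Homotopy K3 surfaces: closed smooth 4-manifolds homotopy equivalent to a K3 surface. -/
structure IsHomotopyK3 (E : Type) [NormedAddCommGroup E] [NormedSpace ℝ E]
    (M : Type) [TopologicalSpace M] [ChartedSpace E M] : Prop where
  dim : Module.finrank ℝ E = 4
  compact : CompactSpace M
  hausdorff : T2Space M
  smooth : IsManifold 𝓘(ℝ, E) ∞ M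
  homotopy : ∃ (S : Type) (_ : TopologicalSpace S) (_ : ChartedSpace (ℂ × ℂ) S),
    IsK3Surface S ∧ Nonempty (ContinuousMap.HomotopyEquiv M S)

/-- `G` acts effectively and smoothly on `M`. -/
def ActsSmoothly (G : Type) [Group G] (E : Type) [NormedAddCommGroup E] [NormedSpace ℝ E]
    (M : Type) [TopologicalSpace M] [ChartedSpace E M] : Prop :=
  ∃ ρ : G →* (M ≃ₜ M), Function.Injective ρ ∧ ∀ g, ContMDiff 𝓘(ℝ, E) 𝓘(ℝ, E) ∞ (ρ g)

/-! ### Cochains on small finite subsets, coefficients mod 2 -/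

open scoped Classical in
/-- The coboundary. -/
def dd {X : Type} : (Finset X → ZMod 2) →ₗ[ZMod 2] (Finset X → ZMod 2) where
  toFun f σ := ∑ x ∈ σ, f (σ.erase x)
  map_add' f g := by
    funext σ
    simp [Finset.sum_add_distrib]
  map_smul' c f := by
    funext σ
    simp [Finset.mul_sum]

section Metric

variable {X : Type} [MetricSpace X]

/-- The finite set `σ` has diameter less than `δ`. -/
def Small (δ : ℝ) (σ : Finset X) : Prop := ∀ x ∈ σ, ∀ y ∈ σ, dist x y < δ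

/-- The finite set `σ` is contained in the open `δ`-neighbourhood of `F`. -/
def Near (F : Set X) (δ : ℝ) (σ : Finset X) : Prop := ∀ x ∈ σ, ∃ p ∈ F, dist x p < δ

/-- Functions vanishing on all sufficiently small `n`-element subsets of `B`. -/
def Zg (B : Set X) (n : ℕ) : Submodule (ZMod 2) (Finset X → ZMod 2) where
  carrier := {f | ∃ δ > 0, ∀ σ : Finset X, (↑σ : Set X) ⊆ B → Small δ σ → σ.card = n → f σ = 0}
  zero_mem' := ⟨1, one_pos, fun _ _ _ _ => rfl⟩
  add_mem' := by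
    rintro f g ⟨δ, hδ, hf⟩ ⟨ε, hε, hg⟩
    refine ⟨min δ ε, lt_min hδ hε, fun σ hσ hs hc => ?_⟩
    rw [Pi.add_apply, hf σ hσ (fun x hx y hy => (hs x hx y hy).trans_le (min_le_left _ _)) hc,
      hg σ hσ (fun x hx y hy => (hs x hx y hy).trans_le (min_le_right _ _)) hc, add_zero]
  smul_mem' := by
    rintro c f ⟨δ, hδ, hf⟩
    exact ⟨δ, hδ, fun σ hσ hs hc => by rw [Pi.smul_apply, hf σ hσ hs hc, smul_zero]⟩

/-- Functions vanishing on all sufficiently small `n`-element sets sufficiently near `F`. -/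
def ZF (F : Set X) (n : ℕ) : Submodule (ZMod 2) (Finset X → ZMod 2) where
  carrier := {f | ∃ δ > 0, ∀ σ : Finset X, Near F δ σ → Small δ σ → σ.card = n → f σ = 0}
  zero_mem' := ⟨1, one_pos, fun _ _ _ _ => rfl⟩
  add_mem' := by
    rintro f g ⟨δ, hδ, hf⟩ ⟨ε, hε, hg⟩
    refine ⟨min δ ε, lt_min hδ hε, fun σ hσ hs hc => ?_⟩
    rw [Pi.add_apply, hf σ (fun x hx => (hσ x hx).imp fun p hp => ⟨hp.1,
        hp.2.trans_le (min_le_left _ _)⟩)
        (fun x hx y hy => (hs x hx y hy).trans_le (min_le_left _ _)) hc,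
      hg σ (fun x hx => (hσ x hx).imp fun p hp => ⟨hp.1, hp.2.trans_le (min_le_right _ _)⟩)
        (fun x hx y hy => (hs x hx y hy).trans_le (min_le_right _ _)) hc, add_zero]
  smul_mem' := by
    rintro c f ⟨δ, hδ, hf⟩
    exact ⟨δ, hδ, fun σ hσ hs hc => by rw [Pi.smul_apply, hf σ hσ hs hc, smul_zero]⟩

/-- Functions vanishing on all finite sets sufficiently near `F` (in particular on the empty
set). -/
def Vrel (F : Set X) : Submodule (ZMod 2) (Finset X → ZMod 2) where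
  carrier := {f | ∃ δ > 0, ∀ σ : Finset X, Near F δ σ → f σ = 0}
  zero_mem' := ⟨1, one_pos, fun _ _ => rfl⟩
  add_mem' := by
    rintro f g ⟨δ, hδ, hf⟩ ⟨ε, hε, hg⟩
    refine ⟨min δ ε, lt_min hδ hε, fun σ hσ => ?_⟩
    rw [Pi.add_apply, hf σ (fun x hx => (hσ x hx).imp fun p hp => ⟨hp.1,
        hp.2.trans_le (min_le_left _ _)⟩),
      hg σ (fun x hx => (hσ x hx).imp fun p hp => ⟨hp.1, hp.2.trans_le (min_le_right _ _)⟩),
      add_zero]
  smul_mem' := by
    rintro c f ⟨δ, hδ, hf⟩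
    exact ⟨δ, hδ, fun σ hσ => by rw [Pi.smul_apply, hf σ hσ, smul_zero]⟩

/-- Local contractibility. -/
def LC (X : Type) [MetricSpace X] : Prop :=
  ∀ x : X, ∀ ε > 0, ∃ η > 0, ∃ Φ : ℝ → X → X,
    ContinuousOn (fun q : ℝ × X => Φ q.1 q.2) (Set.Icc 0 1 ×ˢ Metric.closedBall x η) ∧
    (∀ y ∈ Metric.closedBall x η, Φ 0 y = y) ∧
    (∃ c, ∀ y ∈ Metric.closedBall x η, Φ 1 y = c) ∧
    ∀ t ∈ Set.Icc (0 : ℝ) 1, ∀ y ∈ Metric.closedBall x η, Φ t y ∈ Metric.closedBall x ε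

end Metric

open scoped Classical in
/-- Functions invariant under the subgroup `K`. -/
def Vinv {X G : Type} [Group G] [MulAction G X] (K : Subgroup G) :
    Submodule (ZMod 2) (Finset X → ZMod 2) where
  carrier := {f | ∀ g ∈ K, ∀ σ : Finset X, f (σ.image (fun x => g • x)) = f σ}
  zero_mem' := fun _ _ _ => rfl
  add_mem' := by
    intro f f' hf hf' g hg σ
    rw [Pi.add_apply, Pi.add_apply, hf g hg σ, hf' g hg σ]
  smul_mem' := by
    intro c f hf g hg σ
    rw [Pi.smul_apply, Pi.smul_apply, hf g hg σ]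

open scoped Classical in
/-- Arbitrarily fine equivariant partitions with bounded local multiplicity. -/
def Grid (G X : Type) [Group G] [MetricSpace X] [MulAction G X] (D : ℕ) : Prop :=
  ∀ ε > 0, ∃ (Q : Type) (_ : MulAction G Q) (c : X → Q),
    (∀ (g : G) (x : X), c (g • x) = g • c x) ∧
    (∀ x y, c x = c y → dist x y < ε) ∧
    ∃ δ > 0, ∀ σ : Finset X, Small δ σ → (σ.image c).card ≤ D

/-! ### Cohomology of a filtered complex -/

section Algebra

variable {V : Type} [AddCommGroup V] [Module (ZMod 2) V]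

/-- Cocycles of degree `n`. -/
def Cyc (d : V →ₗ[ZMod 2] V) (Z : ℕ → Submodule (ZMod 2) V) (W : Submodule (ZMod 2) V) (n : ℕ) :
    Submodule (ZMod 2) V := W ⊓ (Z (n + 1)).comap d

/-- Coboundaries of degree `n`. -/
def Bdy (d : V →ₗ[ZMod 2] V) (Z : ℕ → Submodule (ZMod 2) V) (W : Submodule (ZMod 2) V) (n : ℕ) :
    Submodule (ZMod 2) V := W.map d ⊔ (W ⊓ Z n)

/-- Cohomology of degree `n`. -/
abbrev Coh (d : V →ₗ[ZMod 2] V) (Z : ℕ → Submodule (ZMod 2) V) (W : Submodule (ZMod 2) V)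
    (n : ℕ) : Type := (Cyc d Z W n) ⧸ ((Bdy d Z W n).submoduleOf (Cyc d Z W n))

/-- The Euler characteristic (the set of `n` points has dimension `n - 1`). -/
def chi (d : V →ₗ[ZMod 2] V) (Z : ℕ → Submodule (ZMod 2) V) (W : Submodule (ZMod 2) V)
    (D : ℕ) : ℤ :=
  ∑ n ∈ Finset.range (D + 1), (-1) ^ (n + 1) * (Module.finrank (ZMod 2) (Coh d Z W n) : ℤ)

end Algebra

/-- The absolute cohomology of a metric space; `H X (n + 1)` is the cohomology in degree `n`. -/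
abbrev HX (X : Type) [MetricSpace X] (n : ℕ) : Type :=
  Coh (dd (X := X)) (Zg Set.univ) (Vrel ∅) n

/-! ### Further definitions for the modules -/

open scoped Classical in
/-- Pull back of cochains; degenerate images count as zero. -/
def pull {X Y : Type} (φ : X → Y) :
    (Finset Y → ZMod 2) →ₗ[ZMod 2] (Finset X → ZMod 2) where
  toFun f σ := if (σ.image φ).card = σ.card then f (σ.image φ) else 0
  map_add' f g := by
    funext σ
    by_cases h : (σ.image φ).card = σ.card <;> simp [h]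
  map_smul' c f := by
    funext σ
    by_cases h : (σ.image φ).card = σ.card <;> simp [h]

open scoped Classical in
/-- The prism on the finite set `σ` with top vertex `x`. -/
def prismSet {X Y L : Type} [LinearOrder L] (key : X → L) (φ ψ : X → Y) (σ : Finset X) (x : X) :
    Finset Y :=
  (σ.filter (fun y => key y ≤ key x)).image φ ∪ (σ.filter (fun y => key x ≤ key y)).image ψ

/-- The prism operator between `φ` and `ψ`. -/
def prism {X Y L : Type} [LinearOrder L] (key : X → L) (φ ψ : X → Y) :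
    (Finset Y → ZMod 2) →ₗ[ZMod 2] (Finset X → ZMod 2) where
  toFun f σ := ∑ x ∈ σ,
    if (prismSet key φ ψ σ x).card = σ.card + 1 then f (prismSet key φ ψ σ x) else 0
  map_add' f g := by
    funext σ
    simp only [Pi.add_apply, ← Finset.sum_add_distrib]
    refine Finset.sum_congr rfl fun x _ => ?_
    split_ifs <;> simp
  map_smul' c f := by
    funext σ
    simp only [Pi.smul_apply, RingHom.id_apply, Finset.smul_sum]
    refine Finset.sum_congr rfl fun x _ => ?_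
    split_ifs <;> simp

/-- Short exact sequences of filtered complexes `0 → (Z, A) → (Z, B) → (Z', C) → 0`; the first map
is the inclusion and the second is `p`. -/
structure SES {V : Type} [AddCommGroup V] [Module (ZMod 2) V] (d : V →ₗ[ZMod 2] V)
    (Z Z' : ℕ → Submodule (ZMod 2) V) (A B C : Submodule (ZMod 2) V) (p : V →ₗ[ZMod 2] V) :
    Prop where
  d2 : ∀ v, d (d v) = 0
  Zd : ∀ n, ∀ v ∈ Z n, d v ∈ Z (n + 1)
  Zd' : ∀ n, ∀ v ∈ Z' n, d v ∈ Z' (n + 1)
  Ad : ∀ v ∈ A, d v ∈ A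
  Bd : ∀ v ∈ B, d v ∈ B
  Cd : ∀ v ∈ C, d v ∈ C
  AB : A ≤ B
  pB : ∀ b ∈ B, p b ∈ C
  pd : ∀ b ∈ B, p (d b) = d (p b)
  pZ : ∀ n, ∀ b ∈ B, b ∈ Z n → p b ∈ Z' n
  surj : ∀ n, ∀ c ∈ C, ∃ b ∈ B, p b - c ∈ Z' n
  mid : ∀ n, ∀ b ∈ B, p b ∈ Z' n → ∃ a ∈ A, a - b ∈ Z n
  comp : ∀ n, ∀ a ∈ A, p a ∈ Z' n
  zeroB : ∀ v ∈ B, v ∈ Z 0
  zeroC : ∀ v ∈ C, v ∈ Z' 0

/-- Up to finitely many linear conditions every cocycle on `D` is a coboundary on `C`. -/
def FinPair {X : Type} [MetricSpace X] (C D : Set X) (n : ℕ) : Prop :=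
  ∃ (m : ℕ) (l : (Finset X → ZMod 2) →ₗ[ZMod 2] (Fin m → ZMod 2)),
    ∀ f ∈ Vrel (∅ : Set X), dd f ∈ Zg D (n + 1) → l f = 0 → f ∈ Bdy dd (Zg C) (Vrel ∅) n

/-- The derivative of `g` at a fixed point `p`, in the preferred chart at `p`. -/
def locD {S : Type} [TopologicalSpace S] [ChartedSpace (ℂ × ℂ) S] (g : S → S) (p : S) :
    (ℂ × ℂ) →L[ℂ] (ℂ × ℂ) :=
  fderiv ℂ (fun z => chartAt (ℂ × ℂ) p (g ((chartAt (ℂ × ℂ) p).symm z))) (chartAt (ℂ × ℂ) p p)

/-- The affine coordinate `x_i / x_a` on `X0`. -/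
def zc (a i : Fin 6) (T : X0) : ℂ := T.1 i a / T.1 a a

/-- The part of `X0` where `(x_b / x_a, x_c / x_a)` are local coordinates. -/
def Och (a b c : Fin 6) : Set X0 :=
  {T | T.1 a a ≠ 0 ∧ ∀ j, j ≠ a → j ≠ b → j ≠ c → T.1 j j ≠ 0}

/-- The local coordinates. -/
def crd (a b c : Fin 6) (T : X0) : ℂ × ℂ := (zc a b T, zc a c T)

/-- Charts with the coordinates `crd a b c`. -/
def IsChAt (a b c : Fin 6) (e : OpenPartialHomeomorph X0 (ℂ × ℂ)) : Prop :=
  a ≠ b ∧ a ≠ c ∧ b ≠ c ∧ e.source ⊆ Och a b c ∧ ∀ q ∈ e.source, e q = crd a b c q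

/-- The charts of `X0`. -/
def IsCh (e : OpenPartialHomeomorph X0 (ℂ × ℂ)) : Prop := ∃ a b c, IsChAt a b c e

/-- The linear space of all `y` with `∑ i^m y_i = 0` for `m = 0, 1, 2`. -/
def KK : Set (Fin 6 → ℂ) := {y | ∀ m : Fin 3, ∑ i : Fin 6, ((i : ℕ) : ℂ) ^ (m : ℕ) * y i = 0}

/-- Coefficients expressing `y_j`, `j ∉ A`, by the `y_s`, `s ∈ A`, for `y ∈ KK` and `A` a set with
three elements. -/
def Lc (A : Finset (Fin 6)) (j s : Fin 6) : ℂ :=
  -∏ r ∈ (Finset.univ \ A).erase j, (((s : ℕ) : ℂ) - ((r : ℕ) : ℂ)) / (((j : ℕ) : ℂ) - ((r : ℕ) : ℂ))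

/-- The determinant of the columns `t, u, v` on the rows `a, b, c`. -/
def tri (t u v : Fin 6 → ℂ) (a b c : Fin 6) : ℂ :=
  t a * (u b * v c - u c * v b) - t b * (u a * v c - u c * v a) + t c * (u a * v b - u b * v a)

/-- The constant belonging to the coordinates `a, b, c`. -/
def WW (a b c : Fin 6) : ℂ :=
  (((b : ℕ) : ℂ) - ((a : ℕ) : ℂ)) * (((c : ℕ) : ℂ) - ((a : ℕ) : ℂ)) *
    (((c : ℕ) : ℂ) - ((b : ℕ) : ℂ)) *
    ∏ s ∈ ({a, b, c} : Finset (Fin 6)), ∏ r ∈ Finset.univ \ ({a, b, c} : Finset (Fin 6)),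
      (((r : ℕ) : ℂ) - ((s : ℕ) : ℂ))

/-- The coefficient of the holomorphic 2-form of `X0` in the coordinates `crd a b c`. -/
def wX (a b c : Fin 6) (T : X0) : ℂ :=
  WW a b c / ∏ j ∈ Finset.univ \ ({a, b, c} : Finset (Fin 6)), zc a j T

/-- The quotient of `g^* Ω` and `Ω` at `p`, computed in the charts `e` at `p` and `e'` at `g p`. -/
def jac {S : Type} [TopologicalSpace S] (w : OpenPartialHomeomorph S (ℂ × ℂ) → S → ℂ) (g : S → S)
    (e e' : OpenPartialHomeomorph S (ℂ × ℂ)) (p : S) : ℂ :=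
  w e' (g p) * (fderiv ℂ (fun z => e' (g (e.symm z))) (e p)).det / w e p

/-- `w` defines a nowhere vanishing holomorphic 2-form. -/
def IsVol {S : Type} [TopologicalSpace S] [ChartedSpace (ℂ × ℂ) S]
    (w : OpenPartialHomeomorph S (ℂ × ℂ) → S → ℂ) : Prop :=
  (∀ e ∈ atlas (ℂ × ℂ) S, ∀ p ∈ e.source, w e p ≠ 0) ∧
  (∀ e ∈ atlas (ℂ × ℂ) S, DifferentiableOn ℂ (fun z => w e (e.symm z)) e.target) ∧
  (∀ e ∈ atlas (ℂ × ℂ) S, ∀ e' ∈ atlas (ℂ × ℂ) S, ∀ p ∈ e.source ∩ e'.source,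
    w e p = w e' p * (fderiv ℂ (fun z => e' (e.symm z)) (e p)).det)

/-- The sign of the coordinate `i` for the element `v`. -/
def sg (v : Fin 6 → ZMod 2) (i : Fin 6) : ℂ := if i = 0 then 1 else (-1) ^ (v i).val

/-- Complex conjugation if `v 0 ≠ 0`. -/
def cj (v : Fin 6 → ZMod 2) (z : ℂ) : ℂ := if v 0 = 0 then z else (starRingEnd ℂ) z

/-- Signs with product one. -/
def sg4 (v : Fin 4 → ZMod 2) (i : Fin 6) : ℂ :=
  ![1, (-1) ^ (v 0).val, (-1) ^ (v 1).val, (-1) ^ (v 2).val, (-1) ^ (v 3).val,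
    (-1) ^ (v 0 + v 1 + v 2 + v 3).val] i

end Pool.Agent.helper62.K3
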