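import Pool.Agent.helper62.K3.Top

open scoped Manifold ContDiff

noncomputable section

namespace Pool.Agent.helper62.K3

theorem MAIN_exists_chart (T : X0) :
    ∃ e : OpenPartialHomeomorph X0 (ℂ × ℂ), T ∈ e.source ∧ IsCh e := by
  obtain ⟨a, b, c, hab, hac, hbc, h⟩ := P2_cover T
  obtain ⟨e, he, he'⟩ := P3 a b c hab hac hbc T h
  exact ⟨e, he, a, b, c, he'⟩

/-- The complex structure of `X0`: the charts are the local inverses of the coordinate maps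
`(x_b / x_a, x_c / x_a)`. -/
instance instChartedSpaceX0 : ChartedSpace (ℂ × ℂ) X0 where
  atlas := {e | IsCh e}
  chartAt T := (MAIN_exists_chart T).choose
  mem_chart_source T := (MAIN_exists_chart T).choose_spec.1
  chart_mem_atlas T := (MAIN_exists_chart T).choose_spec.2

theorem MAIN_mem_atlas (e : OpenPartialHomeomorph X0 (ℂ × ℂ)) :
    e ∈ atlas (ℂ × ℂ) X0 ↔ IsCh e := Iff.rfl

theorem MAIN_chartAt (T : X0) : IsCh (chartAt (ℂ × ℂ) T) := chart_mem_atlas (ℂ × ℂ) T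

instance instIsManifoldX0 : IsManifold 𝓘(ℂ, ℂ × ℂ) ω X0 := by
  refine isManifold_of_contDiffOn 𝓘(ℂ, ℂ × ℂ) ω X0 fun e e' he he' => ?_
  have h := P5 e e' he he'
  have hs : (𝓘(ℂ, ℂ × ℂ).symm ⁻¹' (e.symm ≫ₕ e').source ∩ Set.range 𝓘(ℂ, ℂ × ℂ)) =
      e.target ∩ e.symm ⁻¹' e'.source := by
    ext u
    simp
  rw [hs]
  have : (𝓘(ℂ, ℂ × ℂ) ∘ (e.symm ≫ₕ e') ∘ 𝓘(ℂ, ℂ × ℂ).symm : ℂ × ℂ → ℂ × ℂ) =
      fun u => e' (e.symm u) := by
    funext u
    simp
  rw [this]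
  exact h.contDiffOn_of_completeSpace

/-- the 2-form -/
def MAIN_w (e : OpenPartialHomeomorph X0 (ℂ × ℂ)) : X0 → ℂ := by
  classical
  exact if h : IsCh e then wX h.choose h.choose_spec.choose h.choose_spec.choose_spec.choose
    else fun _ => 1

theorem MAIN_w_spec (e : OpenPartialHomeomorph X0 (ℂ × ℂ)) (he : IsCh e) :
    ∃ a b c, IsChAt a b c e ∧ MAIN_w e = wX a b c := by
  refine ⟨he.choose, he.choose_spec.choose, he.choose_spec.choose_spec.choose,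
    he.choose_spec.choose_spec.choose_spec, ?_⟩
  unfold MAIN_w
  rw [dif_pos he]

theorem MAIN_canonical : HasTrivialCanonical X0 := by
  refine ⟨MAIN_w, ?_, ?_, ?_⟩
  · intro e he p hp
    obtain ⟨a, b, c, h, hw⟩ := MAIN_w_spec e he
    rw [hw]
    unfold wX
    refine div_ne_zero (P6A_ne a b c h.1 h.2.1 h.2.2.1) (Finset.prod_ne_zero_iff.mpr ?_)
    intro j hj
    simp only [Finset.mem_sdiff, Finset.mem_univ, true_and, Finset.mem_insert,
      Finset.mem_singleton, not_or] at hj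
    have h1 := h.2.2.2.1 hp
    have h2 := h1.2 j hj.1 hj.2.1 hj.2.2
    intro h3
    exact h2 (((P2_rel a p h1.1).2.2.2.1 j).mpr h3)
  · intro e he
    obtain ⟨a, b, c, h, hw⟩ := MAIN_w_spec e he
    rw [hw]
    unfold wX
    refine AnalyticOnNhd.differentiableOn (AnalyticOnNhd.div analyticOnNhd_const ?_ ?_)
    · refine Finset.analyticOnNhd_fun_prod _ fun j _ => ?_
      exact (P4 a b c e h j).1
    · intro u hu
      refine Finset.prod_ne_zero_iff.mpr ?_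
      intro j hj
      simp only [Finset.mem_sdiff, Finset.mem_univ, true_and, Finset.mem_insert,
        Finset.mem_singleton, not_or] at hj
      exact (P4 a b c e h j).2 hj.2.1 hj.2.2 u hu
  · intro e he e' he' p hp
    obtain ⟨a, b, c, h, hw⟩ := MAIN_w_spec e he
    obtain ⟨a', b', c', h', hw'⟩ := MAIN_w_spec e' he'
    rw [hw, hw']
    exact P6D a b c a' b' c' e e' h h' p hp.1 hp.2

theorem MAIN_K3 : IsK3Surface X0 where
  compact := P2_compact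
  hausdorff := P2_t2
  connected := P7
  holomorphic := inferInstance
  canonical := MAIN_canonical
  homotopy := ⟨ContinuousMap.HomotopyEquiv.refl X0⟩

theorem MAIN_homotopyK3 : IsHomotopyK3 (ℂ × ℂ) X0 where
  dim := by
    rw [Module.finrank_prod, Complex.finrank_real_complex]
  compact := P2_compact
  hausdorff := P2_t2
  smooth := RS
  homotopy := ⟨X0, inferInstance, inferInstance, MAIN_K3, ⟨ContinuousMap.HomotopyEquiv.refl X0⟩⟩

theorem MAIN_not : ¬ IsK3Group (Multiplicative (Fin 6 → ZMod 2)) := by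
  rintro ⟨S, _, _, hS, ρ, hi, hρ⟩
  have := hS.compact
  have := hS.hausdorff
  have := hS.connected
  have := hS.holomorphic
  have : IsManifold 𝓘(ℝ, ℂ × ℂ) ∞ S := RS
  have : IsManifold 𝓘(ℝ, ℂ × ℂ) ∞ X0 := RS
  have := P2_compact
  have := P2_t2
  obtain ⟨H, _, _, ρ', F, h1, h2, h3, h4, h5, m, h6⟩ := SF hS ρ hi hρ
  obtain ⟨ρ₀, hρ₀⟩ := P9A
  have hT := TOP (E := ℂ × ℂ) hS.homotopy h1 (G' := Multiplicative (Fin 4 → ZMod 2))
    (by
      intro g
      apply Multiplicative.toAdd.injective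
      rw [toAdd_mul, toAdd_one]
      exact CharTwo.add_self_eq_zero _) 5 4 h2
    (by
      rw [Nat.card_congr Multiplicative.toAdd]
      simp) ρ' ρ₀ F h3 _ P9C.1 h4 ?_ h5 ?_
  · rw [h6, P9C.2] at hT
    norm_num at hT
    omega
  · rintro g T ⟨i, j, hij, hi', hj'⟩
    obtain ⟨v, rfl⟩ := Multiplicative.ofAdd.surjective g
    refine ⟨i, j, hij, ?_, ?_⟩
    · rw [hρ₀, hi', mul_zero]
    · rw [hρ₀, hj', mul_zero]
  · intro T hT g hg
    obtain ⟨v, rfl⟩ := Multiplicative.ofAdd.surjective g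
    have : v = 0 := P9B v T (fun i j => by rw [← hρ₀, hg]) hT
    rw [this]; rfl

theorem MAIN_smooth (v : Fin 6 → ZMod 2) (f : X0 → X0) (hc : Continuous f)
    (hf : ∀ (T : X0) (i j : Fin 6), (f T).1 i j = sg v i * sg v j * cj v (T.1 i j)) :
    ContMDiff 𝓘(ℝ, ℂ × ℂ) 𝓘(ℝ, ℂ × ℂ) ∞ f ∧
    ∀ p, 0 < (fderiv ℝ (fun z => chartAt (ℂ × ℂ) (f p) (f ((chartAt (ℂ × ℂ) p).symm z)))
      (chartAt (ℂ × ℂ) p p)).det := by
  have : IsManifold 𝓘(ℝ, ℂ × ℂ) ∞ X0 := RS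
  refine ⟨?_, ?_⟩
  · rw [contMDiff_iff]
    refine ⟨hc, fun x y => ?_⟩
    have h := (P8C v f hf (chartAt (ℂ × ℂ) x) (chartAt (ℂ × ℂ) y) (MAIN_chartAt x)
      (MAIN_chartAt y)).1
    simpa [mfld_simps, Function.comp_def, Set.preimage] using h
  · intro p
    refine (P8C v f hf (chartAt (ℂ × ℂ) p) (chartAt (ℂ × ℂ) (f p)) (MAIN_chartAt p)
      (MAIN_chartAt (f p))).2 _ ⟨?_, ?_⟩
    · exact (chartAt (ℂ × ℂ) p).map_source (mem_chart_source (ℂ × ℂ) p)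
    · show f ((chartAt (ℂ × ℂ) p).symm ((chartAt (ℂ × ℂ) p) p)) ∈ (chartAt (ℂ × ℂ) (f p)).source
      rw [(chartAt (ℂ × ℂ) p).left_inv (mem_chart_source (ℂ × ℂ) p)]
      exact mem_chart_source (ℂ × ℂ) (f p)

theorem MAIN_acts : ∃ ρ : Multiplicative (Fin 6 → ZMod 2) →* (X0 ≃ₜ X0),
    Function.Injective ρ ∧
    (∀ (v : Fin 6 → ZMod 2) (T : X0) (i j : Fin 6),
      (ρ (Multiplicative.ofAdd v) T).1 i j = sg v i * sg v j * cj v (T.1 i j)) ∧
    (∀ g, ContMDiff 𝓘(ℝ, ℂ × ℂ) 𝓘(ℝ, ℂ × ℂ) ∞ (ρ g)) ∧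
    ∀ g p, 0 < (fderiv ℝ (fun z => chartAt (ℂ × ℂ) (ρ g p) (ρ g ((chartAt (ℂ × ℂ) p).symm z)))
      (chartAt (ℂ × ℂ) p p)).det := by
  obtain ⟨ρ, hρ⟩ := P8A
  refine ⟨ρ, ?_, hρ, ?_, ?_⟩
  · rw [injective_iff_map_eq_one]
    intro g hg
    obtain ⟨v, rfl⟩ := Multiplicative.ofAdd.surjective g
    have : v = 0 := P8B v (fun T i j => by rw [← hρ, hg]; rfl)
    rw [this]; rfl
  · intro g
    obtain ⟨v, rfl⟩ := Multiplicative.ofAdd.surjective g
    exact (MAIN_smooth v _ (ρ (Multiplicative.ofAdd v)).continuous (hρ v)).1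
  · intro g
    obtain ⟨v, rfl⟩ := Multiplicative.ofAdd.surjective g
    exact (MAIN_smooth v _ (ρ (Multiplicative.ofAdd v)).continuous (hρ v)).2

end Pool.Agent.helper62.K3
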