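import Pool.Agent.helper62.K3.Wire

open scoped Manifold ContDiff

noncomputable section

namespace Pool.Agent.helper62.K3

theorem T1_Vinv_bot {X G : Type} [MetricSpace X] [Group G] [MulAction G X] (F : Set X) :
    (Vinv (X := X) (⊥ : Subgroup G)) ⊓ Vrel F = Vrel F := by
  refine inf_eq_right.mpr fun f _ => ?_
  intro g hg σ
  rw [Subgroup.mem_bot] at hg
  subst hg
  congr 1
  ext x
  simp

/-- the subgroup `K ∪ s K` -/
def T1_ext {G : Type} [Group G] (hcomm : ∀ g h : G, g * h = h * g) (h2 : ∀ g : G, g * g = 1)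
    (K : Subgroup G) (s : G) : Subgroup G where
  carrier := {g | g ∈ K ∨ s * g ∈ K}
  one_mem' := Or.inl K.one_mem
  mul_mem' := by
    rintro a b (ha | ha) (hb | hb)
    · exact Or.inl (K.mul_mem ha hb)
    · refine Or.inr ?_
      have : s * (a * b) = a * (s * b) := by rw [← mul_assoc, hcomm s a, mul_assoc]
      rw [this]; exact K.mul_mem ha hb
    · refine Or.inr ?_
      rw [← mul_assoc]; exact K.mul_mem ha hb
    · refine Or.inl ?_
      have : a * b = (s * a) * (s * b) := by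
        calc a * b = (s * s) * (a * b) := by rw [h2, one_mul]
          _ = (s * a) * (s * b) := by
            rw [mul_assoc, ← mul_assoc s a b, hcomm s a, mul_assoc a s b, ← mul_assoc s a (s * b),
              hcomm s a, mul_assoc]
      rw [this]; exact K.mul_mem ha hb
  inv_mem' := by
    intro a ha
    have : a⁻¹ = a := inv_eq_of_mul_eq_one_right (h2 a)
    rw [this]; exact ha

theorem T1_mem {G : Type} [Group G] (hcomm : ∀ g h : G, g * h = h * g) (h2 : ∀ g : G, g * g = 1)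
    (K : Subgroup G) (s : G) (g : G) : g ∈ T1_ext hcomm h2 K s ↔ g ∈ K ∨ s * g ∈ K := Iff.rfl

theorem T1_card {G : Type} [Group G] [Finite G] (hcomm : ∀ g h : G, g * h = h * g)
    (h2 : ∀ g : G, g * g = 1) (K : Subgroup G) (s : G) (hs : s ∉ K) :
    Nat.card (T1_ext hcomm h2 K s) = 2 * Nat.card K := by
  have h1 : Nat.card (T1_ext hcomm h2 K s) = (T1_ext hcomm h2 K s : Set G).ncard := by
    rw [← Nat.card_coe_set_eq]; rfl
  have h3 : Nat.card K = (K : Set G).ncard := by
    rw [← Nat.card_coe_set_eq]; rfl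
  have h4 : (T1_ext hcomm h2 K s : Set G) = (K : Set G) ∪ (fun g => s * g) '' (K : Set G) := by
    ext g
    simp only [SetLike.mem_coe, T1_mem, Set.mem_union, Set.mem_image]
    refine or_congr Iff.rfl ⟨fun h => ⟨s * g, h, ?_⟩, ?_⟩
    · rw [← mul_assoc, h2, one_mul]
    · rintro ⟨k, hk, rfl⟩
      rw [← mul_assoc, h2, one_mul]; exact hk
  rw [h1, h4, Set.ncard_union_eq ?_ (Set.toFinite _) (Set.toFinite _),
    Set.ncard_image_of_injective _ (fun a b h => mul_left_cancel h), h3]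
  · ring
  · rw [Set.disjoint_left]
    rintro g hg ⟨k, hk, rfl⟩
    apply hs
    have : s = (s * k) * k⁻¹ := by group
    rw [this]; exact K.mul_mem hg (K.inv_mem hk)

theorem T1_dd_eq_chi {X : Type} {d : (Finset X → ZMod 2) →ₗ[ZMod 2] (Finset X → ZMod 2)}
    {Z Z' : ℕ → Submodule (ZMod 2) (Finset X → ZMod 2)}
    {A B C : Submodule (ZMod 2) (Finset X → ZMod 2)}
    {p : (Finset X → ZMod 2) →ₗ[ZMod 2] (Finset X → ZMod 2)} (S : SES d Z Z' A B C p)
    (hA : ∀ n, Module.Finite (ZMod 2) (Coh d Z A n))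
    (hB : ∀ n, Module.Finite (ZMod 2) (Coh d Z B n))
    (hC : ∀ n, Module.Finite (ZMod 2) (Coh d Z' C n)) (D : ℕ)
    (hD : Subsingleton (Coh d Z A (D + 1))) :
    chi d Z B D = chi d Z A D + chi d Z' C D := by
  obtain ⟨i, q, δ, h1, h2, h3, h4, -, -⟩ := AL S
  exact LE2 (fun n => Coh d Z A n) (fun n => Coh d Z B n) (fun n => Coh d Z' C n) i q δ h1 h2 h3
    h4 D hD

theorem T1 {X G : Type} [MetricSpace X] [CompactSpace X] [Group G] [Finite G] [MulAction G X]
    (iso : ∀ g : G, Isometry (fun x : X => g • x)) (F : Set X) (hF : F.Finite)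
    (hinv : ∀ g : G, ∀ x ∈ F, g • x ∈ F)
    (hfree : ∀ x, x ∉ F → ∀ g : G, g • x = x → g = 1)
    (hcomm : ∀ g h : G, g * h = h * g) (h2 : ∀ g : G, g * g = 1) (r : ℕ)
    (hr : Nat.card G = 2 ^ r) (D : ℕ) (grid : Grid G X D) (lc : LC X) (hD : 1 ≤ D) :
    (∀ n, Module.Finite (ZMod 2) (HX X n)) ∧ (∀ n, D < n → Subsingleton (HX X n)) ∧
    (2 ^ r : ℤ) ∣ chi (dd (X := X)) (Zg Set.univ) (Vrel ∅) D - (F.ncard : ℤ) := by
  have fin0 : ∀ n, Module.Finite (ZMod 2) (HX X n) := fun n =>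
    FD n (FC lc n Set.univ Set.univ 1 one_pos (fun _ _ _ _ => Set.mem_univ _))
  have van0 : ∀ n, D < n → Subsingleton (HX X n) := by
    intro n hn
    have grid' : Grid (⊥ : Subgroup G) X D := by
      intro ε hε
      obtain ⟨Q, iQ, c, hc, hc', δ, hδ, h⟩ := grid ε hε
      exact ⟨Q, inferInstance, c, fun g x => hc g x, hc', δ, hδ, h⟩
    have := VD (G := (⊥ : Subgroup G)) (fun g => iso g) (∅ : Set X) Set.finite_empty
      (fun _ x hx => absurd hx (Set.notMem_empty x)) (fun x _ g _ => Subsingleton.elim g 1) D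
      grid' ⊥ n hn
    rw [T1_Vinv_bot] at this
    exact this
  refine ⟨fin0, van0, ?_⟩
  -- the pair
  have finC : ∀ n, Module.Finite (ZMod 2) (Coh (dd (X := X)) (ZF F) (Vrel ∅) n) := by
    intro n
    by_cases hn : n = 1
    · subst hn; exact (UD lc F hF).1
    · have := UC lc F hF n hn
      exact Module.Finite.of_surjective (0 : (Fin 0 → ZMod 2) →ₗ[ZMod 2] _)
        (fun x => ⟨0, Subsingleton.elim _ _⟩)
  have SB := UB (X := X) F
  have finA : ∀ n, Module.Finite (ZMod 2) (Coh (dd (X := X)) (Zg Set.univ) (Vrel F) n) := by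
    obtain ⟨i, q, δ, e1, e2, e3, e4, -, -⟩ := AL SB
    exact (LE1 _ _ _ i q δ e1 e2 e3 e4).1 fin0 finC
  have vanK : ∀ (K : Subgroup G) n, D < n →
      Subsingleton (Coh (dd (X := X)) (Zg Set.univ) (Vinv K ⊓ Vrel F) n) := fun K n hn =>
    VD iso F hF hinv hfree D grid K n hn
  have vanA : Subsingleton (Coh (dd (X := X)) (Zg Set.univ) (Vrel F) (D + 1)) := by
    have := vanK ⊥ (D + 1) (Nat.lt_succ_self D)
    rwa [T1_Vinv_bot] at this
  have e1 := T1_dd_eq_chi SB finA fin0 finC D vanA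
  have e2 : chi (dd (X := X)) (ZF F) (Vrel ∅) D = (F.ncard : ℤ) := by
    unfold chi
    rw [Finset.sum_eq_single 1]
    · rw [(UD lc F hF).2]; ring
    · intro n _ hn
      have := UC lc F hF n hn
      have h0 : Module.finrank (ZMod 2) (Coh (dd (X := X)) (ZF F) (Vrel ∅) n) = 0 :=
        Module.finrank_zero_of_subsingleton
      rw [h0]; simp
    · intro h
      exact absurd (Finset.mem_range.mpr (by omega)) h
  rw [e1, e2, add_sub_cancel_right]
  -- halving
  have key : ∀ m, m ≤ r → ∃ K : Subgroup G, Nat.card K = 2 ^ m ∧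
      (∀ n, Module.Finite (ZMod 2) (Coh (dd (X := X)) (Zg Set.univ) (Vinv K ⊓ Vrel F) n)) ∧
      chi (dd (X := X)) (Zg Set.univ) (Vrel F) D =
        2 ^ m * chi (dd (X := X)) (Zg Set.univ) (Vinv K ⊓ Vrel F) D := by
    intro m
    induction m with
    | zero =>
      intro _
      refine ⟨⊥, by simp, ?_, ?_⟩
      · rw [T1_Vinv_bot]; exact finA
      · rw [T1_Vinv_bot]; simp
    | succ m ih =>
      intro hm
      obtain ⟨K, hK, finK, hchi⟩ := ih (by omega)
      obtain ⟨s, hs⟩ : ∃ s, s ∉ K := by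
        by_contra hcon
        push Not at hcon
        have : K = ⊤ := by ext x; simp [hcon x]
        rw [this, Subgroup.card_top, hr] at hK
        have := Nat.pow_right_injective le_rfl hK
        omega
      obtain ⟨p, SK⟩ := UA iso F hF hinv hfree hcomm h2 K (T1_ext hcomm h2 K s) s hs
        (fun g => T1_mem hcomm h2 K s g)
      have finK' : ∀ n, Module.Finite (ZMod 2)
          (Coh (dd (X := X)) (Zg Set.univ) (Vinv (T1_ext hcomm h2 K s) ⊓ Vrel F) n) := by
        obtain ⟨i, q, δ, f1, f2, f3, f4, -, -⟩ := AL SK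
        exact (LE1 _ _ _ i q δ f1 f2 f3 f4).2 D finK (fun n hn => vanK _ n hn) (fun n h => h)
      have e3 := T1_dd_eq_chi SK finK' finK finK' D (vanK _ _ (Nat.lt_succ_self D))
      refine ⟨T1_ext hcomm h2 K s, ?_, finK', ?_⟩
      · rw [T1_card hcomm h2 K s hs, hK]; ring
      · rw [hchi, e3]; ring
  obtain ⟨K, -, -, h⟩ := key r le_rfl
  exact ⟨_, h⟩

end Pool.Agent.helper62.K3
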