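import Pool.Agent.helper62.K3.T1

open scoped Manifold ContDiff

noncomputable section

namespace Pool.Agent.helper62.K3

theorem TOP_one {E S G : Type} [NormedAddCommGroup E] [NormedSpace ℝ E]
    [FiniteDimensional ℝ E]
    [TopologicalSpace S] [ChartedSpace E S] [IsManifold 𝓘(ℝ, E) ∞ S] [CompactSpace S] [T2Space S]
    [CommGroup G] [Finite G] (h2 : ∀ g : G, g * g = 1)
    (r : ℕ) (hr : Nat.card G = 2 ^ r) (ρ : G →* (S ≃ₜ S)) (F : Set S) (hF : F.Finite)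
    (hinv : ∀ g : G, ∀ x ∈ F, ρ g x ∈ F)
    (hfree : ∀ x, x ∉ F → ∀ g : G, ρ g x = x → g = 1) :
    ∃ (Y : Type) (_ : MetricSpace Y) (_ : CompactSpace Y) (_ : S ≃ₜ Y) (D : ℕ), 1 ≤ D ∧
      (∀ n, D < n → Subsingleton (HX Y n)) ∧
      (2 ^ r : ℤ) ∣ chi (dd (X := Y)) (Zg Set.univ) (Vrel ∅) D - (F.ncard : ℤ) := by
  obtain ⟨n, e, -, he, -⟩ := exists_embedding_euclidean_of_compact (I := 𝓘(ℝ, E)) (M := S)
  obtain ⟨Y, iM, iC, iA, φ, hφ, iso, D, hD, grid⟩ := EM ρ ⟨n, e, he⟩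
  have hF' : (φ '' F).Finite := hF.image _
  have hinv' : ∀ g : G, ∀ x ∈ φ '' F, g • x ∈ φ '' F := by
    rintro g _ ⟨x, hx, rfl⟩
    exact ⟨ρ g x, hinv g x hx, hφ g x⟩
  have hfree' : ∀ x, x ∉ φ '' F → ∀ g : G, g • x = x → g = 1 := by
    intro y hy g hg
    obtain ⟨x, rfl⟩ := φ.surjective y
    refine hfree x (fun hx => hy ⟨x, hx, rfl⟩) g ?_
    rw [← hφ] at hg
    exact φ.injective hg
  obtain ⟨-, t2, t3⟩ := T1 iso (φ '' F) hF' hinv' hfree' (fun g h => mul_comm g h) h2 r hr D grid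
    (LM (E := E) φ) hD
  refine ⟨Y, iM, iC, φ, D, hD, t2, ?_⟩
  rwa [Set.ncard_image_of_injective F φ.injective] at t3

theorem TOP_chi {Y Y' : Type} [MetricSpace Y] [CompactSpace Y] [MetricSpace Y'] [CompactSpace Y']
    (e : ContinuousMap.HomotopyEquiv Y Y') (D D' : ℕ)
    (h : ∀ n, D < n → Subsingleton (HX Y n)) (h' : ∀ n, D' < n → Subsingleton (HX Y' n)) :
    chi (dd (X := Y)) (Zg Set.univ) (Vrel ∅) D = chi (dd (X := Y')) (Zg Set.univ) (Vrel ∅) D' := by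
  have key : ∀ (W : Type) [MetricSpace W] [CompactSpace W] (d m : ℕ), d ≤ m →
      (∀ n, d < n → Subsingleton (HX W n)) →
      chi (dd (X := W)) (Zg Set.univ) (Vrel ∅) m = chi (dd (X := W)) (Zg Set.univ) (Vrel ∅) d := by
    intro W _ _ d m hdm hs
    unfold chi
    symm
    apply Finset.sum_subset
    · intro x hx
      rw [Finset.mem_range] at hx ⊢
      omega
    · intro n _ hn
      rw [Finset.mem_range, not_lt] at hn
      have := hs n (by omega)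
      have h0 : Module.finrank (ZMod 2) (HX W n) = 0 := Module.finrank_zero_of_subsingleton
      rw [h0]; simp
  rw [← key Y D (max D D') (le_max_left _ _) h, ← key Y' D' (max D D') (le_max_right _ _) h']
  unfold chi
  refine Finset.sum_congr rfl fun n _ => ?_
  have := HI e n
  rw [show Module.finrank (ZMod 2) (Coh (dd (X := Y)) (Zg Set.univ) (Vrel ∅) n) =
    Module.finrank (ZMod 2) (Coh (dd (X := Y')) (Zg Set.univ) (Vrel ∅) n) from this]

theorem TOP {E S S' G G' : Type} [NormedAddCommGroup E] [NormedSpace ℝ E]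
    [FiniteDimensional ℝ E]
    [TopologicalSpace S] [ChartedSpace E S] [IsManifold 𝓘(ℝ, E) ∞ S] [CompactSpace S] [T2Space S]
    [TopologicalSpace S'] [ChartedSpace E S'] [IsManifold 𝓘(ℝ, E) ∞ S'] [CompactSpace S']
    [T2Space S'] (he : Nonempty (ContinuousMap.HomotopyEquiv S S'))
    [CommGroup G] [Finite G] [CommGroup G'] [Finite G']
    (h2 : ∀ g : G, g * g = 1) (h2' : ∀ g : G', g * g = 1)
    (r r' : ℕ) (hr : Nat.card G = 2 ^ r) (hr' : Nat.card G' = 2 ^ r')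
    (ρ : G →* (S ≃ₜ S)) (ρ' : G' →* (S' ≃ₜ S')) (F : Set S) (hF : F.Finite) (F' : Set S')
    (hF' : F'.Finite)
    (hinv : ∀ g : G, ∀ x ∈ F, ρ g x ∈ F) (hinv' : ∀ g : G', ∀ x ∈ F', ρ' g x ∈ F')
    (hfree : ∀ x, x ∉ F → ∀ g : G, ρ g x = x → g = 1)
    (hfree' : ∀ x, x ∉ F' → ∀ g : G', ρ' g x = x → g = 1) :
    (2 ^ (min r r') : ℤ) ∣ (F.ncard : ℤ) - (F'.ncard : ℤ) := by
  obtain ⟨Y, _, _, φ, D, hD, a1, a2⟩ := TOP_one (E := E) h2 r hr ρ F hF hinv hfree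
  obtain ⟨Y', _, _, φ', D', hD', b1, b2⟩ := TOP_one (E := E) h2' r' hr' ρ' F' hF' hinv' hfree'
  obtain ⟨e⟩ := he
  have e' : ContinuousMap.HomotopyEquiv Y Y' :=
    (φ.symm.toHomotopyEquiv.trans e).trans φ'.toHomotopyEquiv
  have h := TOP_chi e' D D' a1 b1
  have c1 : (2 ^ (min r r') : ℤ) ∣ chi (dd (X := Y)) (Zg Set.univ) (Vrel ∅) D - (F.ncard : ℤ) :=
    (pow_dvd_pow 2 (min_le_left _ _)).trans a2
  have c2 : (2 ^ (min r r') : ℤ) ∣ chi (dd (X := Y')) (Zg Set.univ) (Vrel ∅) D' -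
      (F'.ncard : ℤ) := (pow_dvd_pow 2 (min_le_right _ _)).trans b2
  have := dvd_sub c2 c1
  rw [h] at this
  have h3 : chi (dd (X := Y')) (Zg Set.univ) (Vrel ∅) D' - (F'.ncard : ℤ) -
      (chi (dd (X := Y')) (Zg Set.univ) (Vrel ∅) D' - (F.ncard : ℤ)) =
      (F.ncard : ℤ) - (F'.ncard : ℤ) := by ring
  rwa [h3] at this

end Pool.Agent.helper62.K3
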