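import Pool.Agent.helper15.HK.CH
import Pool.Agent.helper15.HK.DD
import Pool.Agent.helper16.HK.P3
import Pool.Agent.helper17.HK.FC
import Pool.Agent.helper18.HK.UA
import Pool.Agent.helper18.HK.UB
import Pool.Agent.helper18.HK.VD
import Pool.Agent.helper33.HK.P5
import Pool.Agent.helper33.HK.P6B
import Pool.Agent.helper33.HK.P6C
import Pool.Agent.helper33.HK.RS
import Pool.Agent.helper35.HK.FD
import Pool.Agent.helper35.HK.LM
import Pool.Agent.helper4.HK.EM
import Pool.Agent.helper46.HK.P2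
import Pool.Agent.helper81.HK.P7
import Pool.Agent.helper83.HK.P6D
import Pool.Agent.helper83.HK.UC
import Pool.Agent.helper92.HK.P8A
import Pool.Agent.helper92.HK.P8B
import Pool.Agent.helper93.HK.LE2
import Pool.Agent.helper93.HK.P6A
import Pool.Agent.helper97.HK.P9A
import Pool.Agent.helper97.HK.SF
import Pool.Agent.helper97.HK.UD
import Pool.Agent.helper99.HK.AL
import Pool.Agent.helper99.HK.LE1
import Pool.Agent.helper10.HK.HT2
import Pool.Agent.helper10.HK.HI
import Pool.Agent.helper10.HK.FB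
import Pool.Agent.helper13.HK.P8C
import Pool.Agent.helper6.HK.P9B
import Pool.Agent.helper6.HK.P9C

open scoped Manifold ContDiff

noncomputable section

namespace Pool.Agent.helper62.K3

theorem P4 (a b c : Fin 6) (e : OpenPartialHomeomorph X0 (ℂ × ℂ)) (he : IsChAt a b c e)
    (i : Fin 6) : AnalyticOnNhd ℂ (fun u => zc a i (e.symm u)) e.target ∧
      (i ≠ b → i ≠ c → ∀ u ∈ e.target, zc a i (e.symm u) ≠ 0) := P5_P4 a b c e he i

theorem P3 (a b c : Fin 6) (hab : a ≠ b) (hac : a ≠ c) (hbc : b ≠ c) (T : X0)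
    (hT : T ∈ Och a b c) : ∃ e : OpenPartialHomeomorph X0 (ℂ × ℂ), T ∈ e.source ∧
      IsChAt a b c e := P3_of P1 P2_zc P2_rel P2_mk a b c hab hac hbc T hT

theorem P6D (a b c a' b' c' : Fin 6) (e e' : OpenPartialHomeomorph X0 (ℂ × ℂ))
    (he : IsChAt a b c e) (he' : IsChAt a' b' c' e') (T : X0) (hT : T ∈ e.source)
    (hT' : T ∈ e'.source) :
    wX a b c T = wX a' b' c' T * (fderiv ℂ (fun z => e' (e.symm z)) (e T)).det :=
  P6D_of P2_zc P2_rel P5 P6A P6B P6C a b c a' b' c' e e' he he' T hT hT'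

theorem FC {X : Type} [MetricSpace X] [CompactSpace X] (lc : LC X) (n : ℕ) (C D : Set X)
    (a : ℝ) (ha : 0 < a) (h : ∀ x ∈ C, ∀ y, dist x y < a → y ∈ D) : FinPair C D n :=
  FC_of (fun C D x η Φ hK h1 h2 h3 h4 h5 n => FB C D x η Φ hK h1 h2 h3 h4 h5 n) lc n C D a ha h

theorem UC {X : Type} [MetricSpace X] [CompactSpace X] (lc : LC X) (F : Set X) (hF : F.Finite)
    (n : ℕ) (hn : n ≠ 1) : Subsingleton (Coh (dd (X := X)) (ZF F) (Vrel ∅) n) :=
  UC_of (fun B hB D Φ hΦ hD n f hf => HT2 B hB D Φ hΦ hD n f hf) lc F hF n hn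

end Pool.Agent.helper62.K3
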